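import Pool.Agent.Helper40.CN.Spec

/-!
# CN part HALL: finitely generated abelian-by-nilpotent groups satisfy max-n (P. Hall)
-/

set_option autoImplicit false

namespace Pool.Agent.Helper6.CNC.HALL

universe u

open Pool.Agent.Helper40.CN

theorem hall (hCL : S_CL.{u}) (hNFS : S_NFS.{u}) (hNO0 : S_NO0.{u}) (hNOS : S_NOS.{u})
    (hMAX : S_MAX.{u}) : S_HALL.{u} := by
  intro N _ _ A _ hab hnil
  classical
  -- (1) `A` is normally finitely generated
  have h1 : ∃ F : Set N, F.Finite ∧ A = Subgroup.normalClosure F := by
    have := hCL N A hnil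
      (fun Δ => (∃ F : Set N, F.Finite ∧ Δ = Subgroup.normalClosure F) →
        ∃ F : Set N, F.Finite ∧ A = Subgroup.normalClosure F) (fun h => h)
      (fun Δ hΔ hAΔ hP z hz hF => hP (hNFS N Δ z hΔ hz hF))
    apply this
    obtain ⟨S, hS⟩ := (Group.fg_def.1 (inferInstance : Group.FG N))
    refine ⟨(S : Set N), S.finite_toSet, ?_⟩
    symm
    rw [eq_top_iff, ← hS]
    exact Subgroup.closure_le_normalClosure
  obtain ⟨F0, hF0, hAF0⟩ := h1
  -- (2) the module
  let cg : CommGroup A :=
    { (inferInstance : Group A) with
      mul_comm := fun a b => Subtype.ext (hab a.1 a.2 b.1 b.2) }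
  let act : DistribMulAction N (Additive A) :=
    { smul := fun n v => Additive.ofMul (MulAut.conjNormal n (Additive.toMul v))
      one_smul := fun v => by
        show Additive.ofMul (MulAut.conjNormal (1 : N) (Additive.toMul v)) = v
        rw [map_one]; rfl
      mul_smul := fun x y v => by
        show Additive.ofMul (MulAut.conjNormal (x * y) (Additive.toMul v)) = _
        rw [map_mul]; rfl
      smul_zero := fun n => by
        show Additive.ofMul (MulAut.conjNormal n (1 : A)) = 0
        rw [map_one]; rfl
      smul_add := fun n v w => by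
        show Additive.ofMul (MulAut.conjNormal n (Additive.toMul v * Additive.toMul w)) = _
        rw [map_mul]; rfl }
  have hsm : ∀ (n : N) (v : Additive A),
      ((Additive.toMul (n • v) : A) : N) = n * ((Additive.toMul v : A) : N) * n⁻¹ := by
    intro n v
    show ((MulAut.conjNormal n (Additive.toMul v) : A) : N) = _
    rw [MulAut.conjNormal_apply]
  have hNN : NN (⊤ : Subgroup N) (Additive A) := by
    refine hCL N A hnil (fun Δ => NN Δ (Additive A)) ?_ ?_
    · apply hNO0 N A (Additive A)
      intro δ hδ v
      apply Additive.toMul.injective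
      apply Subtype.ext
      rw [hsm, hab δ hδ _ (Additive.toMul v).2]
      group
    · intro Δ hΔ _ hP z _
      refine hNOS N Δ z (Additive A) ?_ hP
      intro δ hδ
      refine ⟨hΔ.conj_mem δ hδ z, ?_⟩
      have := hΔ.conj_mem δ hδ z⁻¹
      simpa using this
  have hDFG : DFG (⊤ : Subgroup N) (⊤ : AddSubgroup (Additive A)) := by
    refine ⟨{v : Additive A | ((Additive.toMul v : A) : N) ∈ F0}, ?_, ?_⟩
    · apply Set.Finite.preimage _ hF0
      intro x _ y _ h
      exact Additive.toMul.injective (Subtype.ext h)
    · symm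
      rw [eq_top_iff]
      intro v _
      have key : ∀ x : N, x ∈ Subgroup.closure (Group.conjugatesOfSet F0) → ∀ hx : x ∈ A,
          (Additive.ofMul (⟨x, hx⟩ : A)) ∈ AddSubgroup.closure {v : Additive A |
            ∃ δ ∈ (⊤ : Subgroup N), ∃ y ∈ {v : Additive A | ((Additive.toMul v : A) : N) ∈ F0},
              v = δ • y} := by
        intro x hx
        have hcl : Subgroup.closure (Group.conjugatesOfSet F0) = A := hAF0.symm
        refine Subgroup.closure_induction (p := fun x _ => ∀ hx : x ∈ A,
          (Additive.ofMul (⟨x, hx⟩ : A)) ∈ AddSubgroup.closure {v : Additive A |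
            ∃ δ ∈ (⊤ : Subgroup N), ∃ y ∈ {v : Additive A | ((Additive.toMul v : A) : N) ∈ F0},
              v = δ • y}) ?_ ?_ ?_ ?_ hx
        · intro x hx hxA
          obtain ⟨f, hf, hfx⟩ := Group.mem_conjugatesOfSet_iff.1 hx
          obtain ⟨c, hc⟩ := isConj_iff.1 hfx
          have hfA : f ∈ A := by rw [hAF0]; exact Subgroup.subset_normalClosure hf
          apply AddSubgroup.subset_closure
          refine ⟨c, Subgroup.mem_top c, Additive.ofMul ⟨f, hfA⟩, hf, ?_⟩
          apply Additive.toMul.injective
          apply Subtype.ext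
          rw [hsm]
          exact hc.symm
        · intro _
          exact AddSubgroup.zero_mem _
        · intro x y hx hy ihx ihy hxy
          rw [hcl] at hx hy
          exact AddSubgroup.add_mem _ (ihx hx) (ihy hy)
        · intro x hx ih hxi
          rw [hcl] at hx
          exact AddSubgroup.neg_mem _ (ih hx)
      have hv : ((Additive.toMul v : A) : N) ∈ Subgroup.closure (Group.conjugatesOfSet F0) :=
        hAF0.le (Additive.toMul v).2
      exact key _ hv (Additive.toMul v).2
  -- (3) normal subgroups contained in `A`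
  have h3 : ∀ K : Subgroup N, K.Normal → K ≤ A →
      ∃ F : Set N, F.Finite ∧ K = Subgroup.normalClosure F := by
    intro K hK hKA
    let U : AddSubgroup (Additive A) :=
      { carrier := {v | ((Additive.toMul v : A) : N) ∈ K}
        zero_mem' := K.one_mem
        add_mem' := fun {a b} ha hb => K.mul_mem ha hb
        neg_mem' := fun {a} ha => K.inv_mem ha }
    have hU : ∀ v : Additive A, v ∈ U ↔ ((Additive.toMul v : A) : N) ∈ K := fun v => Iff.rfl
    obtain ⟨Y, hY, hUY⟩ := hNN U ⊤ le_top (by
      intro δ _ v hv
      rw [hU, hsm]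
      exact hK.conj_mem _ hv δ) hDFG
    refine ⟨(fun v : Additive A => ((Additive.toMul v : A) : N)) '' Y, hY.image _, ?_⟩
    apply le_antisymm
    · intro x hx
      have hxU : (Additive.ofMul (⟨x, hKA hx⟩ : A)) ∈ U := hx
      rw [hUY] at hxU
      have key : ∀ v : Additive A, v ∈ AddSubgroup.closure {v : Additive A |
          ∃ δ ∈ (⊤ : Subgroup N), ∃ y ∈ Y, v = δ • y} → ((Additive.toMul v : A) : N) ∈
          Subgroup.normalClosure ((fun v : Additive A => ((Additive.toMul v : A) : N)) '' Y) := by
        intro v hv
        refine AddSubgroup.closure_induction (p := fun v _ => ((Additive.toMul v : A) : N) ∈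
          Subgroup.normalClosure ((fun v : Additive A => ((Additive.toMul v : A) : N)) '' Y))
          ?_ ?_ ?_ ?_ hv
        · rintro v ⟨δ, _, y, hy, rfl⟩
          rw [hsm]
          have hmem : ((Additive.toMul y : A) : N) ∈ Subgroup.normalClosure
              ((fun v : Additive A => ((Additive.toMul v : A) : N)) '' Y) :=
            Subgroup.subset_normalClosure (Set.mem_image_of_mem _ hy)
          exact Subgroup.normalClosure_normal.conj_mem _ hmem δ
        · exact Subgroup.one_mem _
        · intro a b _ _ ha hb
          exact Subgroup.mul_mem _ ha hb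
        · intro a _ ha
          exact Subgroup.inv_mem _ ha
      exact key _ hxU
    · apply Subgroup.normalClosure_le_normal
      rintro _ ⟨y, hy, rfl⟩
      have : y ∈ U := by
        rw [hUY]
        exact AddSubgroup.subset_closure ⟨1, Subgroup.mem_top _, y, hy, (one_smul _ _).symm⟩
      exact this
  -- (4) all normal subgroups
  intro K hK
  obtain ⟨F1, hF1, hKF1⟩ := h3 (K ⊓ A) inferInstance inf_le_right
  obtain ⟨S, hS⟩ := hMAX (N ⧸ A) hnil (K.map (QuotientGroup.mk' A))
  have hsub : (S : Set (N ⧸ A)) ⊆ (QuotientGroup.mk' A) '' (K : Set N) := by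
    intro s hs
    have : s ∈ K.map (QuotientGroup.mk' A) := by
      rw [← hS]; exact Subgroup.subset_closure hs
    exact this
  obtain ⟨T, hTK, hTS⟩ := Finset.subset_set_image_iff.1 hsub
  refine ⟨F1 ∪ (T : Set N), hF1.union T.finite_toSet, ?_⟩
  apply le_antisymm
  · intro x hx
    have hx1 : (QuotientGroup.mk' A) x ∈ K.map (QuotientGroup.mk' A) :=
      Subgroup.mem_map_of_mem _ hx
    rw [← hS, ← hTS, Finset.coe_image, ← MonoidHom.map_closure] at hx1
    obtain ⟨x', hx', hxx⟩ := hx1
    have hTle : Subgroup.closure (T : Set N) ≤ K := (Subgroup.closure_le K).2 hTK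
    have hA : x'⁻¹ * x ∈ A := by
      rw [← QuotientGroup.eq]
      exact hxx
    have hKA : x'⁻¹ * x ∈ K ⊓ A := ⟨K.mul_mem (K.inv_mem (hTle hx')) hx, hA⟩
    rw [hKF1] at hKA
    have h1 : x'⁻¹ * x ∈ Subgroup.normalClosure (F1 ∪ (T : Set N)) :=
      Subgroup.normalClosure_mono Set.subset_union_left hKA
    have h2 : x' ∈ Subgroup.normalClosure (F1 ∪ (T : Set N)) :=
      Subgroup.normalClosure_mono Set.subset_union_right
        (Subgroup.closure_le_normalClosure hx')
    have := Subgroup.mul_mem _ h2 h1
    simpa using this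
  · apply Subgroup.normalClosure_le_normal
    rintro f (hf | hf)
    · have : f ∈ K ⊓ A := by rw [hKF1]; exact Subgroup.subset_normalClosure hf
      exact this.1
    · exact hTK hf

end Pool.Agent.Helper6.CNC.HALL
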