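import Pool.Agent.Helper40.CN.Spec

/-!
# CN part KEY: a finite quotient of `q`-power order which detects `B / B^q`
-/

set_option autoImplicit false

namespace Pool.Agent.Helper6.CNC.KEY

universe u

open Pool.Agent.Helper40.CN

theorem key (hHALL : S_HALL.{u}) (hAR : S_AR.{u}) (hNF : S_NF.{u}) : S_KEY.{u} := by
  intro N _ _ A _ hab hnil q _ B hB hBfg
  classical
  have hBc : ∀ b ∈ B, ∀ g : N, b * g = g * b := by
    intro b hb g
    exact (Subgroup.mem_center_iff.1 (hB hb) g).symm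
  -- the property
  let T : Set (Subgroup N) := {M | M.Normal ∧ ∀ x ∈ B, x ∈ M → ∃ b ∈ B, x = b ^ q}
  let M0 : Subgroup N :=
    { carrier := {x | ∃ b ∈ B, x = b ^ q}
      one_mem' := ⟨1, B.one_mem, by simp⟩
      mul_mem' := by
        rintro x y ⟨b, hb, rfl⟩ ⟨c, hc, rfl⟩
        refine ⟨b * c, B.mul_mem hb hc, ?_⟩
        exact ((Commute.mul_pow (hBc b hb c) q)).symm
      inv_mem' := by
        rintro x ⟨b, hb, rfl⟩
        exact ⟨b⁻¹, B.inv_mem hb, by simp⟩ }
  have hM0 : ∀ x : N, x ∈ M0 ↔ ∃ b ∈ B, x = b ^ q := fun x => Iff.rfl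
  have hM0T : M0 ∈ T := by
    refine ⟨⟨?_⟩, ?_⟩
    · rintro n ⟨b, hb, rfl⟩ g
      refine ⟨b, hb, ?_⟩
      have : g * b ^ q = b ^ q * g := by
        have := hBc (b ^ q) (B.pow_mem hb q) g
        exact this.symm
      rw [this]; group
    · intro x _ hx
      exact hx
  obtain ⟨M, hM0M, hMmax⟩ := zorn_le_nonempty₀ T (by
    intro c hcT hc y hy
    refine ⟨sSup c, ?_, fun z hz => le_sSup hz⟩
    have hdir : DirectedOn (· ≤ ·) c := hc.directedOn
    refine ⟨⟨?_⟩, ?_⟩
    · intro n hn g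
      rw [Subgroup.mem_sSup_of_directedOn ⟨y, hy⟩ hdir] at hn ⊢
      obtain ⟨K, hK, hnK⟩ := hn
      exact ⟨K, hK, (hcT hK).1.conj_mem n hnK g⟩
    · intro x hx hxs
      rw [Subgroup.mem_sSup_of_directedOn ⟨y, hy⟩ hdir] at hxs
      obtain ⟨K, hK, hxK⟩ := hxs
      exact (hcT hK).2 x hx hxK) M0 hM0T
  have hMT : M ∈ T := hMmax.prop
  have : M.Normal := hMT.1
  have hMmem : ∀ x ∈ B, (x ∈ M ↔ ∃ b ∈ B, x = b ^ q) := by
    intro x hx
    refine ⟨hMT.2 x hx, ?_⟩
    rintro ⟨b, hb, rfl⟩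
    exact hM0M ⟨b, hb, rfl⟩
  -- the quotient
  set π := QuotientGroup.mk' M with hπ
  have hsurj : Function.Surjective π := QuotientGroup.mk'_surjective M
  have hAn : (A.map π).Normal := Subgroup.Normal.map inferInstance π hsurj
  have hab' : ∀ a ∈ A.map π, ∀ b ∈ A.map π, a * b = b * a := by
    rintro _ ⟨a, ha, rfl⟩ _ ⟨b, hb, rfl⟩
    rw [← map_mul, ← map_mul, hab a ha b hb]
  have hnil' : Group.IsNilpotent ((N ⧸ M) ⧸ A.map π) := by
    let f : N ⧸ A →* (N ⧸ M) ⧸ A.map π :=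
      QuotientGroup.lift A ((QuotientGroup.mk' (A.map π)).comp π) (by
        intro a ha
        rw [MonoidHom.mem_ker, MonoidHom.comp_apply]
        have : π a ∈ A.map π := Subgroup.mem_map_of_mem _ ha
        exact (QuotientGroup.eq_one_iff _).2 this)
    have hf : Function.Surjective f := by
      intro y
      obtain ⟨z, rfl⟩ := QuotientGroup.mk'_surjective (A.map π) y
      obtain ⟨n, rfl⟩ := hsurj z
      exact ⟨QuotientGroup.mk n, rfl⟩
    exact Group.nilpotent_of_surjective f hf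
  have hMaxN : MaxN (N ⧸ M) := hHALL (N ⧸ M) (A.map π) hab' hnil'
  have hBc' : B.map π ≤ Subgroup.center (N ⧸ M) := by
    rintro _ ⟨b, hb, rfl⟩
    rw [Subgroup.mem_center_iff]
    intro g
    obtain ⟨n, rfl⟩ := hsurj g
    rw [← map_mul, ← map_mul, hBc b hb n]
  have hess : ∀ K : Subgroup (N ⧸ M), K.Normal → K ⊓ B.map π = ⊥ → K = ⊥ := by
    intro K hK hKB
    have hcomap : (K.comap π) ∈ T := by
      refine ⟨hK.comap π, ?_⟩
      intro x hx hxK
      have h1 : π x ∈ K ⊓ B.map π := ⟨hxK, Subgroup.mem_map_of_mem _ hx⟩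
      rw [hKB, Subgroup.mem_bot] at h1
      exact hMT.2 x hx ((QuotientGroup.eq_one_iff x).1 h1)
    have hle : M ≤ K.comap π := by
      intro x hx
      show π x ∈ K
      have : π x = 1 := (QuotientGroup.eq_one_iff x).2 hx
      rw [this]; exact K.one_mem
    have heq : K.comap π ≤ M := hMmax.le_of_ge hcomap hle
    rw [eq_bot_iff]
    intro y hy
    obtain ⟨x, rfl⟩ := hsurj y
    rw [Subgroup.mem_bot]
    exact (QuotientGroup.eq_one_iff x).2 (heq hy)
  have hN2 : Group.IsNilpotent (N ⧸ M) :=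
    hAR (N ⧸ M) (A.map π) hab' hnil' hMaxN (B.map π) hBc' hess
  -- `B.map π` is a finite `q`-group
  have hpow : ∀ b : (B.map π), b ^ q = 1 := by
    rintro ⟨_, b, hb, rfl⟩
    apply Subtype.ext
    show (π b) ^ q = 1
    rw [← map_pow]
    exact (QuotientGroup.eq_one_iff _).2 ((hMmem _ (B.pow_mem hb q)).2 ⟨b, hb, rfl⟩)
  have hpg : IsPGroup q (B.map π) := fun g => ⟨1, by rw [pow_one]; exact hpow g⟩
  have hqpos : 0 < q := (Fact.out : q.Prime).pos
  have hfin : Finite (B.map π) := by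
    let cg : CommGroup (B.map π) :=
      { (inferInstance : Group (B.map π)) with
        mul_comm := fun a b => Subtype.ext
          (by
            have := Subgroup.mem_center_iff.1 (hBc' a.2) b.1
            exact this.symm) }
    have : Group.FG (B.map π) := by
      have h1 : (B.map π).FG := by
        obtain ⟨S, hS⟩ := hBfg
        exact ⟨S.image π, by rw [Finset.coe_image, ← MonoidHom.map_closure, hS]⟩
      exact (Group.fg_iff_subgroup_fg _).2 h1
    have htor : Monoid.IsTorsion (B.map π) := fun b =>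
      isOfFinOrder_iff_pow_eq_one.2 ⟨q, hqpos, hpow b⟩
    exact CommGroup.finite_of_fg_torsion _ htor
  obtain ⟨hfinN, hpgN⟩ := hNF (N ⧸ M) hN2 q (B.map π) hBc' hfin hpg hess
  exact ⟨M, hMT.1, hfinN, hpgN, hMmem⟩

end Pool.Agent.Helper6.CNC.KEY
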